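import Mathlib
import Pool.Agent.Helper89.GP.Asm

/-!
# MP_4011c3_nt: for every `m` a positive proportion (times `min 1 (m / log N)`) of the `n ≤ N`
satisfy the assertions of Q1 and Q2, with the same prime
-/

set_option autoImplicit false

namespace Pool.Agent.Results.MP_4011c3_nt.PositiveProportion

open Finset Pool.Agent.Helper89.GP

/-- Small `N`: the number `n = 2 m + 2` (with `p = 2`) is always there. -/
lemma small {m : ℕ} (hm : 1 ≤ m) : Admissible m (2 * m + 2) ∧ Solvable m (2 * m + 2) := by
  refine ⟨⟨hm, by omega, ?_⟩, solvable_two hm Nat.prime_two (by omega) (by omega)⟩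
  rcases Nat.lt_or_ge m 4 with h | h
  · interval_cases m
    · left; exact ⟨rfl, by decide⟩
    · right; right; left; rfl
    · right; left; exact ⟨rfl, by norm_num⟩
  · right; right; right; exact h

lemma good_of_rr {m n : ℕ} (hm : m = 2 ∨ 4 ≤ m) (h : 0 < rr m n) :
    Admissible m n ∧ Solvable m n := by
  obtain ⟨d, hd⟩ := card_pos.1 h
  rw [mem_filter, mem_Ico] at hd
  have h2 := hd.2.two_le
  refine ⟨⟨by omega, by omega, ?_⟩,
    solvable_two (p := n - d) (by omega) hd.2 (by omega) (by omega)⟩
  rcases hm with h | h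
  · right; right; left; exact h
  · right; right; right; exact h

lemma good_one {p : ℕ} (hp : p.Prime) (h : 3 ≤ p) : Admissible 1 (p + 3) ∧ Solvable 1 (p + 3) := by
  refine ⟨⟨le_rfl, by omega, Or.inl ⟨rfl, ?_⟩⟩, solvable_three hp rfl⟩
  have : Odd p := hp.odd_of_ne_two (by omega)
  exact this.add_odd (by decide)

lemma good_three {p : ℕ} (hp : p.Prime) (h : 3 ≤ p) :
    Admissible 3 (p + 7) ∧ Solvable 3 (p + 7) := by
  refine ⟨⟨by norm_num, by omega, Or.inr (Or.inl ⟨rfl, ?_⟩)⟩,
    solvable_two (by norm_num) hp (by omega) (by omega)⟩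
  have : Odd p := hp.odd_of_ne_two (by omega)
  rw [Nat.odd_iff] at this
  omega

/-- The good `n` up to `N`. -/
def G (m N : ℕ) : Set ℕ := {n | n ≤ N ∧ Admissible m n ∧ Solvable m n}

lemma G_finite (m N : ℕ) : (G m N).Finite :=
  (Set.finite_Iic N).subset fun _ hn => hn.1

lemma shift_count {m N s : ℕ} (hs : ∀ p : ℕ, p.Prime → 3 ≤ p →
    Admissible m (p + s) ∧ Solvable m (p + s)) (h : s ≤ N) :
    Nat.primeCounting (N - s) ≤ (G m N).ncard + 1 := by
  have h1 : ((range (N - s + 1)).filter Nat.Prime).card ≤ (G m N).ncard + 1 := by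
    have h2 : (((range (N - s + 1)).filter Nat.Prime).erase 2).image (fun p => p + s) ⊆
        (G_finite m N).toFinset := by
      intro n hn
      rw [mem_image] at hn
      obtain ⟨p, hp, rfl⟩ := hn
      rw [mem_erase, mem_filter, mem_range] at hp
      have h3 := hp.2.2.two_le
      rw [Set.Finite.mem_toFinset]
      exact ⟨by omega, hs p hp.2.2 (by omega)⟩
    have h3 := card_le_card h2
    rw [card_image_of_injective _ (add_left_injective s),
      ← Set.ncard_eq_toFinset_card (G m N) (G_finite m N)] at h3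
    have h4 := pred_card_le_card_erase (s := (range (N - s + 1)).filter Nat.Prime) (a := 2)
    omega
  rw [Nat.primeCounting, Nat.primeCounting', Nat.count_eq_card_filter_range]
  exact h1

theorem result : ∃ c : ℝ, 0 < c ∧ ∀ N m : ℕ, 1 ≤ m → 4 * m ≤ N →
    c * N * min 1 (m / Real.log N) ≤
      ({n : ℕ | n ≤ N ∧ Admissible m n ∧ Solvable m n}.ncard : ℝ) := by
  obtain ⟨c, hc, N₀, hN₀⟩ := second_moment
  obtain ⟨M, hM⟩ : ∃ M : ℕ, M = max N₀ 10000 := ⟨_, rfl⟩
  have hM1 : N₀ ≤ M := by rw [hM]; exact le_max_left _ _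
  have hM2 : 10000 ≤ M := by rw [hM]; exact le_max_right _ _
  have hMpos : (0 : ℝ) < M := by
    have : 0 < M := by omega
    exact_mod_cast this
  refine ⟨min c (min (1 / M) (1 / 120)), by positivity, fun N m hm h4 => ?_⟩
  change _ ≤ ((G m N).ncard : ℝ)
  have hc1 : min c (min (1 / (M : ℝ)) (1 / 120)) ≤ c := min_le_left _ _
  have hc2 : min c (min (1 / (M : ℝ)) (1 / 120)) ≤ 1 / M :=
    (min_le_right _ _).trans (min_le_left _ _)
  have hc3 : min c (min (1 / (M : ℝ)) (1 / 120)) ≤ 1 / 120 :=
    (min_le_right _ _).trans (min_le_right _ _)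
  have hc0 : 0 < min c (min (1 / (M : ℝ)) (1 / 120)) := by positivity
  generalize min c (min (1 / (M : ℝ)) (1 / 120)) = e at hc1 hc2 hc3 hc0
  have hN4 : (4 : ℝ) ≤ N := by
    have : 4 ≤ N := by omega
    exact_mod_cast this
  have hl : 0 < Real.log N := Real.log_pos (by linarith)
  have hm' : (1 : ℝ) ≤ m := by exact_mod_cast hm
  have hmin1 : min 1 ((m : ℝ) / Real.log N) ≤ 1 := min_le_left _ _
  have hmin2 : min 1 ((m : ℝ) / Real.log N) ≤ m / Real.log N := min_le_right _ _
  have hmin0 : 0 ≤ min 1 ((m : ℝ) / Real.log N) := by positivity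
  rcases Nat.lt_or_ge N M with hsmall | hlarge
  · -- small `N`
    have h1 : 1 ≤ (G m N).ncard := by
      rw [Nat.succ_le_iff, Set.ncard_pos (G_finite m N)]
      exact ⟨2 * m + 2, by omega, small hm⟩
    have h2 : (N : ℝ) ≤ M := by exact_mod_cast hsmall.le
    calc e * N * min 1 ((m : ℝ) / Real.log N) ≤ (1 / M) * M * 1 := by gcongr
      _ = 1 := by field_simp
      _ ≤ _ := by exact_mod_cast h1
  · by_cases hm2 : m = 2 ∨ 4 ≤ m
    · refine le_trans ?_ ((hN₀ N (by omega) m hm h4).trans ?_)
      · gcongr
      · rw [Nat.cast_le, Set.ncard_eq_toFinset_card _ (G_finite m N)]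
        apply card_le_card
        intro n hn
        rw [mem_filter, mem_Icc] at hn
        rw [Set.Finite.mem_toFinset]
        exact ⟨hn.1.2, good_of_rr hm2 hn.2⟩
    · have hm3 : m = 1 ∨ m = 3 := by omega
      have key : Nat.primeCounting (N - 7) ≤ (G m N).ncard + 1 := by
        rcases hm3 with h | h
        · subst h
          refine le_trans ?_ (shift_count (s := 3) (fun p hp h3 => good_one hp h3) (by omega))
          exact Nat.monotone_primeCounting (by omega)
        · subst h
          exact shift_count (s := 7) (fun p hp h3 => good_three hp h3) (by omega)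
      have h5 := pi_quarter (N := N) (K := N - 7) (by omega) (by omega) (by omega)
      have h6 : (Nat.primeCounting (N - 7) : ℝ) ≤ (G m N).ncard + 1 := by exact_mod_cast key
      have hNM : (10000 : ℝ) ≤ N := by
        have : 10000 ≤ N := by omega
        exact_mod_cast this
      have hm33 : (m : ℝ) ≤ 3 := by
        have : m ≤ 3 := by omega
        exact_mod_cast this
      -- log N ≤ N / 50
      have h7 : Real.log N ≤ N / 50 := by
        have h8 := Pool.Agent.PC.BlockB.log_sq_le (x := (N : ℝ)) (by linarith)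
        apply le_of_sq_le_sq _ (by linarith)
        nlinarith
      have h9 : (2 : ℝ) ≤ N / (20 * Real.log N) := by
        rw [le_div_iff₀ (by linarith)]
        linarith
      have h10 : e * N * min 1 ((m : ℝ) / Real.log N) ≤ N / (20 * Real.log N) / 2 := by
        calc e * N * min 1 ((m : ℝ) / Real.log N) ≤ 1 / 120 * N * (3 / Real.log N) := by
              have : min 1 ((m : ℝ) / Real.log N) ≤ 3 / Real.log N :=
                hmin2.trans (by gcongr)
              gcongr
          _ = _ := by field_simp; norm_num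
      linarith

end Pool.Agent.Results.MP_4011c3_nt.PositiveProportion
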